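import Pool.Agent.Lib_helper50.SLPQ.Final

namespace Pool.Agent.Results.MP_88649d_lc.TuringClosure

open SLPQ

/-- Every Boolean circuit `C` with `n` inputs and (adaptive) `PosSLP` oracle gates is one instance
of `PosSLP`: there is a fixed program `F` with at most `100000 (n + size C + 1) ^ 4` instructions
such that `C` accepts `w` iff the program consisting of `bitProg w` (one instruction `1 · 1` or
`1 - 1` for every input bit) followed by `F` belongs to `PosSLP`; in particular one oracle gate is
enough. -/
theorem result : ∀ (n : ℕ) (C : Circ),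
    (∃ F : SLP, F.Valid (1 + n) ∧ F.length ≤ 100000 * (n + C.size + 1) ^ 4 ∧
      ∀ w : List Bool, w.length = n → (C.out w = true ↔ PosSLP (bitProg w ++ F))) ∧
    ∃ D : Circ, D.queries = 1 ∧ D.size ≤ 10 ^ 12 * (n + C.size + 1) ^ 8 ∧
      ∀ w : List Bool, w.length = n → D.out w = C.out w :=
  turing_closure

end Pool.Agent.Results.MP_88649d_lc.TuringClosure
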