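import Pool.Agent.Lib_helper50.SLPD.Final

namespace Pool.Agent.Results.MP_88649d_lc.Witnesses

open SLPQ

/-- The six measures `Nondet` (nondeterministic circuits with adaptive `PosSLP` gates),
`OneQuery`, `RobustWitness` (one real variable), `ComputedWitness False` (witnesses computed with
`+ - · /`), `AlgebraicWitness` (witnesses computed with `+ - · /` and real roots of monic
polynomials of degree at most `s` with computed coefficients), `TriangularWitness` (triangular
systems of monic equations of degree at most `s`) are polynomially equivalent; hence real
existential problems have small nondeterministic `PosSLP` circuits iff they can be brought to each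
of the other five forms. -/
theorem result : ∀ M ∈ measures6, ∀ M' ∈ measures6, PolyLe M M' ∧
    (PolyLe RealWitness M → PolyLe RealWitness M') :=
  main_measures6

end Pool.Agent.Results.MP_88649d_lc.Witnesses
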